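import Pool.Agent.N299.ND.Stm

/-!
# ND/OZS: sums of orthogonal order zero maps
-/

set_option autoImplicit false

open scoped BoundedContinuousFunction Topology Matrix.Norms.L2Operator

noncomputable section

namespace Pool.Agent.N558.ND

open Pool.Agent.N299 Pool.Agent.N299.DT Pool.Agent.N299.ND

section

variable {B : Type} [CStarAlgebra B]

theorem norm_add_le_max {x y : B} (h1 : star x * y = 0) (h2 : x * star y = 0) {N : ℝ}
    (hx : ‖x‖ ≤ N) (hy : ‖y‖ ≤ N) : ‖x + y‖ ≤ N := by
  have h1' : star y * x = 0 := by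
    have := congrArg star h1
    simpa using this
  have h3 : star (x + y) * (x + y) = star x * x + star y * y := by
    rw [star_add, add_mul, mul_add, mul_add, h1, h1', add_zero, zero_add]
  have h4 : ‖x + y‖ * ‖x + y‖ = max (‖x‖ * ‖x‖) (‖y‖ * ‖y‖) := by
    rw [← CStarRing.norm_star_mul_self, ← CStarRing.norm_star_mul_self (x := x),
      ← CStarRing.norm_star_mul_self (x := y), h3]
    refine IsSelfAdjoint.norm_add_eq_max (IsSelfAdjoint.star_mul_self x)
      (IsSelfAdjoint.star_mul_self y) ?_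
    rw [mul_assoc, ← mul_assoc x, h2, zero_mul, mul_zero]
  have hN : 0 ≤ N := (norm_nonneg x).trans hx
  have h5 : max (‖x‖ * ‖x‖) (‖y‖ * ‖y‖) ≤ N * N :=
    max_le (mul_self_le_mul_self (norm_nonneg _) hx) (mul_self_le_mul_self (norm_nonneg _) hy)
  exact abs_le_of_sq_le_sq' (by nlinarith [h4, h5]) hN |>.2

theorem norm_sum_le' {ι : Type} (s : Finset ι) (y : ι → B) {N : ℝ} (hN : 0 ≤ N)
    (h1 : ∀ i ∈ s, ∀ j ∈ s, i ≠ j → star (y i) * y j = 0)
    (h2 : ∀ i ∈ s, ∀ j ∈ s, i ≠ j → y i * star (y j) = 0)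
    (h3 : ∀ i ∈ s, ‖y i‖ ≤ N) : ‖∑ i ∈ s, y i‖ ≤ N := by
  classical
  induction s using Finset.induction_on with
  | empty => simpa using hN
  | insert a s ha ih =>
    rw [Finset.sum_insert ha]
    refine norm_add_le_max ?_ ?_ (h3 a (Finset.mem_insert_self a s))
      (ih (fun i hi j hj => h1 i (Finset.mem_insert_of_mem hi) j (Finset.mem_insert_of_mem hj))
        (fun i hi j hj => h2 i (Finset.mem_insert_of_mem hi) j (Finset.mem_insert_of_mem hj))
        (fun i hi => h3 i (Finset.mem_insert_of_mem hi)))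
    · rw [Finset.mul_sum]
      refine Finset.sum_eq_zero fun i hi => ?_
      exact h1 a (Finset.mem_insert_self a s) i (Finset.mem_insert_of_mem hi)
        (fun h => ha (h ▸ hi))
    · rw [star_sum, Finset.mul_sum]
      refine Finset.sum_eq_zero fun i hi => ?_
      exact h2 a (Finset.mem_insert_self a s) i (Finset.mem_insert_of_mem hi)
        (fun h => ha (h ▸ hi))

theorem pos_one_sub {P : B} (hP : star P = P) (h : ‖P‖ ≤ 1) : Pos (1 - P) := by
  let _ : PartialOrder B := CStarAlgebra.spectralOrder B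
  let _ : StarOrderedRing B := CStarAlgebra.spectralOrderedRing B
  have hsa : IsSelfAdjoint P := hP
  have h1 : P ≤ algebraMap ℝ B ‖P‖ := IsSelfAdjoint.le_algebraMap_norm_self hsa
  have h2 : algebraMap ℝ B ‖P‖ ≤ algebraMap ℝ B 1 := algebraMap_mono B h
  rw [map_one] at h2
  rw [pos_iff]
  exact sub_nonneg.2 (h1.trans h2)

end

theorem t_OZS : S_OZS := by
  intro k n B _ φ S hoz horth
  classical
  have hap : ∀ X : (∀ j : S, M (n j)), mrg φ S X = ∑ j : S, φ j (X j) := by
    intro X
    simp [mrg, LinearMap.sum_apply]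
  have horth' : ∀ (j j' : S), j ≠ j' → ∀ x y, φ j x * φ j' y = 0 := fun j j' h x y =>
    horth j j.2 j' j'.2 (fun h' => h (Subtype.ext h')) x y
  have hmul : ∀ X Y : (∀ j : S, M (n j)), mrg φ S X * mrg φ S Y =
      ∑ j : S, φ j (X j) * φ j (Y j) := by
    intro X Y
    rw [hap, hap, Finset.sum_mul]
    refine Finset.sum_congr rfl fun j _ => ?_
    rw [Finset.mul_sum, Finset.sum_eq_single j]
    · intro j' _ hj'
      exact horth' j j' hj'.symm _ _
    · intro h; exact absurd (Finset.mem_univ _) h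
  have hnorm : ∀ (X : ∀ j : S, M (n j)) (N : ℝ), 0 ≤ N → (∀ j, ‖X j‖ ≤ N) →
      ‖mrg φ S X‖ ≤ N := by
    intro X N hN hX
    rw [hap]
    refine norm_sum_le' _ _ hN ?_ ?_ ?_
    · intro i _ j _ hij
      rw [← (hoz i i.2).st]
      exact horth' i j hij _ _
    · intro i _ j _ hij
      rw [← (hoz j j.2).st]
      exact horth' i j hij _ _
    · intro i _
      exact ((hoz i i.2).norm _).trans (hX i)
  have hst : ∀ X : (∀ j : S, M (n j)), mrg φ S (star X) = star (mrg φ S X) := by
    intro X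
    rw [hap, hap, star_sum]
    refine Finset.sum_congr rfl fun j _ => ?_
    rw [Pi.star_apply, (hoz j j.2).st]
  refine ⟨hst, ?_, ?_, ?_, ?_, ?_⟩
  · intro X Y
    rw [hmul, hmul]
    refine Finset.sum_congr rfl fun j _ => ?_
    rw [(hoz j j.2).mul]
    rfl
  · intro X
    rw [hmul, hmul]
    refine Finset.sum_congr rfl fun j _ => ?_
    exact (hoz j j.2).comm _
  · rintro X ⟨Y, rfl⟩
    rw [hap]
    refine Pos.sum _ _ fun j _ => (hoz j j.2).pos _ ⟨Y j, rfl⟩
  · refine pos_one_sub ?_ ?_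
    · rw [← hst, star_one]
    · refine hnorm 1 1 zero_le_one fun j => ?_
      exact le_of_eq (CStarRing.norm_one (E := M (n j)))
  · intro X
    exact hnorm X ‖X‖ (norm_nonneg _) fun j => norm_le_pi_norm X j

end Pool.Agent.N558.ND
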